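import Mathlib

set_option autoImplicit false

namespace Pool.Agent.Results.MP_8c6834_co.NonMonotone

open Finset

/-- `F` is induced `P`-saturated in the hypergrid `[t]^n` -/
def Saturated (P : Type) [PartialOrder P] {n t : ℕ} (F : Finset (Fin n → Fin t)) : Prop :=
  (¬ ∃ φ : P ↪o (Fin n → Fin t), ∀ x, φ x ∈ F) ∧
    ∀ f ∉ F, ∃ φ : P ↪o (Fin n → Fin t), ∀ x, φ x ∈ insert f F

/-- the induced saturation number -/
noncomputable def sat (P : Type) [PartialOrder P] (n t : ℕ) : ℕ :=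
  sInf {m | ∃ F : Finset (Fin n → Fin t), Saturated P F ∧ F.card = m}

def ple (a b : Fin 6) : Bool :=
  decide (a = b) || decide ((a, b) ∈ [(0, 1), (0, 3), (0, 4), (0, 5), (1, 4), (2, 3)])

def P6 : Type := Fin 6

instance : Fintype P6 := inferInstanceAs (Fintype (Fin 6))

instance : PartialOrder P6 where
  le a b := ple a b = true
  le_refl := by change ∀ a : Fin 6, ple a a = true; decide
  le_trans := by
    change ∀ a b c : Fin 6, ple a b = true → ple b c = true → ple a c = true; decide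
  le_antisymm := by change ∀ a b : Fin 6, ple a b = true → ple b a = true → a = b; decide

def rl {t : ℕ} (x y : Fin t × Fin t) : Bool := decide (x.1 ≤ y.1) && decide (x.2 ≤ y.2)

def ok {t : ℕ} (i j : Fin 6) (x y : Fin t × Fin t) : Prop := rl x y = ple i j ∧ rl y x = ple j i

instance {t : ℕ} (i j : Fin 6) (x y : Fin t × Fin t) : Decidable (ok i j x y) := by
  unfold ok; infer_instance

def e (t : ℕ) : (Fin 2 → Fin t) ≃ Fin t × Fin t := finTwoArrowEquiv _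

lemma le_iff {t : ℕ} (f g : Fin 2 → Fin t) : f ≤ g ↔ rl (e t f) (e t g) = true := by
  simp [rl, e, Pi.le_def, Fin.forall_fin_two]

lemma ok_of {t : ℕ} (φ : P6 ↪o (Fin 2 → Fin t)) (i j : Fin 6) :
    ok i j (e t (φ i)) (e t (φ j)) := by
  constructor <;> rw [Bool.eq_iff_iff, ← le_iff, φ.le_iff_le] <;> rfl

def Cp {t : ℕ} (L : List (Fin t × Fin t)) : Prop :=
  ∃ x0 ∈ L, ∃ x1 ∈ L, ok 0 1 x0 x1 ∧ ∃ x2 ∈ L, ok 0 2 x0 x2 ∧ ok 1 2 x1 x2 ∧ 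
    ∃ x3 ∈ L, ok 0 3 x0 x3 ∧ ok 1 3 x1 x3 ∧ ok 2 3 x2 x3 ∧ ∃ x4 ∈ L, ok 0 4 x0 x4 ∧ ok 1 4 x1 x4 ∧ ok 2 4 x2 x4 ∧ ok 3 4 x3 x4 ∧ 
    ∃ x5 ∈ L, ok 0 5 x0 x5 ∧ ok 1 5 x1 x5 ∧ ok 2 5 x2 x5 ∧ ok 3 5 x3 x5 ∧ ok 4 5 x4 x5 ∧ True

set_option synthInstance.maxSize 4000 in
instance {t : ℕ} (L : List (Fin t × Fin t)) : Decidable (Cp L) := by
  unfold Cp; infer_instance

lemma cp_iff {t : ℕ} (L : List (Fin t × Fin t)) :
    Cp L ↔ ∃ φ : P6 ↪o (Fin 2 → Fin t), ∀ x, e t (φ x) ∈ L := by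
  constructor
  · rintro ⟨x0, m0, x1, m1, h01, x2, m2, h02, h12, x3, m3, h03, h13, h23, x4, m4, h04, h14, h24,
      h34, x5, m5, h05, h15, h25, h35, h45, -⟩
    have rr : ∀ x : Fin t × Fin t, rl x x = true := by intro x; simp [rl]
    refine ⟨OrderEmbedding.ofMapLEIff
      (fun i : Fin 6 => (e t).symm (![x0, x1, x2, x3, x4, x5] i)) ?_, ?_⟩
    · intro a b
      rw [le_iff, Equiv.apply_symm_apply, Equiv.apply_symm_apply]
      change _ ↔ ple a b = true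
      rw [← Bool.eq_iff_iff]
      unfold ok at *
      fin_cases a <;> fin_cases b <;> first | exact rr _ | tauto
    · intro x
      change e t ((e t).symm (![x0, x1, x2, x3, x4, x5] x)) ∈ L
      rw [Equiv.apply_symm_apply]
      fin_cases x <;> assumption
  · rintro ⟨φ, h⟩
    have o := ok_of φ
    exact ⟨_, h (0 : Fin 6), _, h (1 : Fin 6), o _ _, _, h (2 : Fin 6), o _ _, o _ _,
      _, h (3 : Fin 6), o _ _, o _ _, o _ _, _, h (4 : Fin 6), o _ _, o _ _, o _ _, o _ _,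
      _, h (5 : Fin 6), o _ _, o _ _, o _ _, o _ _, o _ _, trivial⟩

lemma sat_of {t : ℕ} (L : List (Fin t × Fin t)) (h1 : ¬ Cp L) (h2 : ∀ v ∉ L, Cp (v :: L)) :
    Saturated P6 (L.toFinset.map (e t).symm.toEmbedding) := by
  have m : ∀ f, f ∈ L.toFinset.map (e t).symm.toEmbedding ↔ e t f ∈ L := by
    intro f; rw [mem_map_equiv]; simp
  constructor
  · simp only [m]
    exact fun h => h1 ((cp_iff L).mpr h)
  · intro f hf
    obtain ⟨φ, h⟩ := (cp_iff _).mp (h2 _ (fun h => hf ((m f).mpr h)))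
    refine ⟨φ, fun x => ?_⟩
    rcases List.mem_cons.mp (h x) with h | h
    · rw [(e t).injective h]; exact mem_insert_self _ _
    · exact mem_insert_of_mem ((m _).mpr h)

def L5 : List (Fin 5 × Fin 5) :=
  [(0, 0), (3, 0), (1, 1), (4, 1), (2, 2), (4, 2), (0, 3), (3, 3), (4, 3), (1, 4), (2, 4), (3, 4),
   (4, 4)]

def L4 : List (Fin 4 × Fin 4) :=
  [(0, 0), (0, 2), (0, 3), (1, 1), (1, 2), (1, 3), (2, 0), (2, 1), (2, 2), (2, 3), (3, 0), (3, 1),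
   (3, 2), (3, 3)]

def C4 : List (List (Fin 4 × Fin 4)) :=
  [[(0, 1), (0, 3), (3, 0), (3, 1), (1, 3), (2, 2)], [(0, 1), (1, 2), (3, 0), (3, 1), (2, 2), (0, 3)],
   [(1, 0), (2, 1), (0, 3), (1, 3), (2, 2), (3, 0)], [(1, 0), (3, 0), (0, 3), (1, 3), (3, 1), (2, 2)]]

set_option synthInstance.maxSize 4000 in
lemma all4 : ∀ x0 : Fin 4 × Fin 4, ∀ x1 : Fin 4 × Fin 4, ok 0 1 x0 x1 → ∀ x2 : Fin 4 × Fin 4, ok 0 2 x0 x2 → ok 1 2 x1 x2 → 
    ∀ x3 : Fin 4 × Fin 4, ok 0 3 x0 x3 → ok 1 3 x1 x3 → ok 2 3 x2 x3 → ∀ x4 : Fin 4 × Fin 4, ok 0 4 x0 x4 → ok 1 4 x1 x4 → ok 2 4 x2 x4 → ok 3 4 x3 x4 → 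
    ∀ x5 : Fin 4 × Fin 4, ok 0 5 x0 x5 → ok 1 5 x1 x5 → ok 2 5 x2 x5 → ok 3 5 x3 x5 → ok 4 5 x4 x5 → [x0, x1, x2, x3, x4, x5] ∈ C4 := by
  decide +kernel

set_option synthInstance.maxSize 4000 in
lemma no3 : ∀ A ∈ C4, ∀ B ∈ C4, ∀ C ∈ C4, ∀ a ∈ A, a ∉ B → a ∉ C → ∀ b ∈ B, b ∉ A → b ∉ C →
    ∀ c ∈ C, c ∉ A → c ∈ B := by
  decide +kernel

lemma lower (F : Finset (Fin 2 → Fin 4)) (h : Saturated P6 F) : 14 ≤ F.card := by
  have key : ∀ f ∉ F, ∃ A ∈ C4, e 4 f ∈ A ∧ ∀ g ∉ F, g ≠ f → e 4 g ∉ A := by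
    intro f hf
    obtain ⟨φ, hφ⟩ := h.2 f hf
    have o := ok_of φ
    have mem : ∀ g, e 4 g ∈ [e 4 (φ (0 : Fin 6)), e 4 (φ (1 : Fin 6)), e 4 (φ (2 : Fin 6)),
        e 4 (φ (3 : Fin 6)), e 4 (φ (4 : Fin 6)), e 4 (φ (5 : Fin 6))] ↔ ∃ x : Fin 6, g = φ x := by
      intro g
      simp [Fin.exists_fin_succ]
    refine ⟨_, all4 _ _ (o 0 1) _ (o 0 2) (o 1 2) _ (o 0 3) (o 1 3) (o 2 3) _ (o 0 4) (o 1 4)
      (o 2 4) (o 3 4) _ (o 0 5) (o 1 5) (o 2 5) (o 3 5) (o 4 5), ?_, ?_⟩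
    · rw [mem]
      by_contra hc
      refine h.1 ⟨φ, fun x => (mem_insert.mp (hφ x)).resolve_left (fun e => hc ⟨x, e.symm⟩)⟩
    · intro g hg hne
      rw [mem]
      rintro ⟨x, rfl⟩
      exact (mem_insert.mp (hφ x)).elim hne hg
  by_contra hc
  have : 2 < Fᶜ.card := by
    rw [card_compl]
    simp only [Fintype.card_pi, Fintype.card_fin, prod_const, card_univ]
    omega
  obtain ⟨a, b, c, ha, hb, hc, h1, h2, h3⟩ := two_lt_card_iff.mp this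
  rw [mem_compl] at ha hb hc
  obtain ⟨A, A1, A2, A3⟩ := key a ha
  obtain ⟨B, B1, B2, B3⟩ := key b hb
  obtain ⟨C, C1, C2, C3⟩ := key c hc
  exact B3 c hc h3.symm (no3 A A1 B B1 C C1 _ A2 (B3 a ha h1) (C3 a ha h2) _ B2
    (A3 b hb h1.symm) (C3 b hb h3) _ C2 (A3 c hc h2.symm))

theorem result : ¬ ∀ (P : Type) [Fintype P] [PartialOrder P] (n t : ℕ), 0 < n → 0 < t →
    Nonempty (P ↪o (Fin n → Fin t)) →
    sat P n t ≤ sat P (n + 1) t ∧ sat P n t ≤ sat P n (t + 1) := by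
  intro h
  obtain ⟨φ, -⟩ := (cp_iff ((0, 1) :: L4)).mp (by decide +kernel)
  have h1 := (h P6 2 4 (by norm_num) (by norm_num) ⟨φ⟩).2
  have h2 : sat P6 2 5 ≤ 13 := by
    apply Nat.sInf_le
    refine ⟨_, sat_of L5 (by decide +kernel) (by decide +kernel), ?_⟩
    rw [card_map]
    decide +kernel
  have h3 : 14 ≤ sat P6 2 4 := by
    unfold sat
    apply le_csInf
    · exact ⟨_, _, sat_of L4 (by decide +kernel) (by decide +kernel), rfl⟩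
    · rintro m ⟨F, hF, rfl⟩
      exact lower F hF
  exact absurd (h3.trans (h1.trans h2)) (by norm_num)

end Pool.Agent.Results.MP_8c6834_co.NonMonotone
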